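import Pool.Agent.Results.MP_28e115_an.RadialImages

set_option autoImplicit false
open MeasureTheory Set Filter Topology

namespace Pool.Agent.W30.RadVar

theorem dist_le_var {f : ℝ → ℂ} {s : Set ℝ} (hf : LocallyBoundedVariationOn f s)
    {a b c : ℝ} (as : a ∈ s) (bs : b ∈ s) (cs : c ∈ s) (bc : b ≤ c) :
    ‖f c - f b‖ ≤ variationOnFromTo f s a c - variationOnFromTo f s a b := calc
  _ = dist (f b) (f c) := by rw [dist_comm, dist_eq_norm]
  _ ≤ variationOnFromTo f s b c := by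
    rw [variationOnFromTo.eq_of_le f s bc, dist_edist]
    apply ENNReal.toReal_mono (hf b c bs cs)
    apply eVariationOn.edist_le f
    exacts [⟨bs, le_rfl, bc⟩, ⟨cs, bc, le_rfl⟩]
  _ = variationOnFromTo f s a c - variationOnFromTo f s a b := by
    rw [← variationOnFromTo.add hf as bs cs, add_sub_cancel_left]

/-- a function of bounded variation on `[0,1)` has an integrable derivative -/
theorem lintegral_deriv_lt_top {g : ℝ → ℂ} (hg : ∀ t ∈ Ioo (0:ℝ) 1, DifferentiableAt ℝ g t)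
    (hv : eVariationOn g (Ico (0:ℝ) 1) ≠ ⊤) :
    ∫⁻ r in Ioo (0:ℝ) 1, ‖deriv g r‖ₑ < ⊤ := by
  have hloc : LocallyBoundedVariationOn g (Ico (0:ℝ) 1) :=
    BoundedVariationOn.locallyBoundedVariationOn hv
  set V : ℝ → ℝ := fun t => if t < 1 then variationOnFromTo g (Ico (0:ℝ) 1) 0 t else
    (eVariationOn g (Ico (0:ℝ) 1)).toReal with hV
  have h0 : (0:ℝ) ∈ Ico (0:ℝ) 1 := ⟨le_rfl, one_pos⟩
  have hmono' : MonotoneOn V (Icc 0 1) := by
    intro x hx y hy hxy
    simp only [hV]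
    by_cases hy1 : y < 1
    · have hx1 : x < 1 := hxy.trans_lt hy1
      rw [if_pos hx1, if_pos hy1]
      exact variationOnFromTo.monotoneOn hloc h0 ⟨hx.1, hx1⟩ ⟨hy.1, hy1⟩ hxy
    · rw [if_neg hy1]
      split_ifs
      · exact (le_abs_self _).trans (variationOnFromTo.abs_le_eVariationOn hv)
      · exact le_rfl
  have hmono : MonotoneOn V (uIcc 0 1) := by
    rw [uIcc_of_le zero_le_one]
    exact hmono'
  have hint := hmono.intervalIntegrable_deriv
  have hle : ∀ᵐ t ∂(volume.restrict (Ioo (0:ℝ) 1)), ‖deriv g t‖ₑ ≤ ‖deriv V t‖ₑ := by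
    have hd := hmono'.ae_differentiableWithinAt_of_mem
    rw [ae_restrict_iff' measurableSet_Ioo]
    filter_upwards [hd] with t ht ht1
    have hdV : DifferentiableAt ℝ V t :=
      (ht (Ioo_subset_Icc_self ht1)).differentiableAt (Icc_mem_nhds ht1.1 ht1.2)
    have hmn : 𝓝[>] t ≤ 𝓝[≠] t := nhdsWithin_mono _ (fun x hx => ne_of_gt hx)
    have h1 := ((hg t ht1).hasDerivAt.tendsto_slope.mono_left hmn).norm
    have h2 := hdV.hasDerivAt.tendsto_slope.mono_left hmn
    have h3 : ‖deriv g t‖ ≤ deriv V t := by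
      refine le_of_tendsto_of_tendsto h1 h2 ?_
      filter_upwards [Ioo_mem_nhdsGT ht1.2] with s hs
      rw [slope_def_module, slope_def_field, norm_smul, norm_inv, Real.norm_eq_abs,
        abs_of_pos (sub_pos.2 hs.1), div_eq_inv_mul]
      refine mul_le_mul_of_nonneg_left ?_ (inv_nonneg.2 (sub_pos.2 hs.1).le)
      simp only [hV]
      rw [if_pos hs.2, if_pos ht1.2]
      exact dist_le_var hloc h0 ⟨ht1.1.le, ht1.2⟩ ⟨(ht1.1.trans hs.1).le, hs.2⟩ hs.1.le
    rw [enorm_le_iff_norm_le]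
    exact h3.trans (le_abs_self _)
  calc ∫⁻ r in Ioo (0:ℝ) 1, ‖deriv g r‖ₑ ≤ ∫⁻ r in Ioo (0:ℝ) 1, ‖deriv V r‖ₑ :=
        lintegral_mono_ae hle
    _ ≤ ∫⁻ r in Ioc (0:ℝ) 1, ‖deriv V r‖ₑ := lintegral_mono_set Ioo_subset_Ioc_self
    _ < ⊤ := hint.1.2

/-- the radial projection -/
noncomputable def proj {n : ℕ} (i : Fin n) (x : Fin n → ℂ) : EuclideanSpace ℂ (Fin n) :=
  if x = 0 then EuclideanSpace.single i 1 else
    ((‖(WithLp.toLp 2 x : EuclideanSpace ℂ (Fin n))‖⁻¹ : ℝ) : ℂ) • WithLp.toLp 2 x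

theorem proj_mem {n : ℕ} (i : Fin n) (x : Fin n → ℂ) :
    proj i x ∈ Metric.sphere (0 : EuclideanSpace ℂ (Fin n)) 1 := by
  unfold proj
  split_ifs with h
  · simp
  · have h1 : ‖(WithLp.toLp 2 x : EuclideanSpace ℂ (Fin n))‖ ≠ 0 := by
      rw [norm_ne_zero_iff]
      intro h2
      apply h
      have := congrArg (WithLp.ofLp) h2
      simpa using this
    rw [mem_sphere_zero_iff_norm, norm_smul]
    simp only [Complex.norm_real, norm_inv, norm_norm]
    exact inv_mul_cancel₀ h1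

theorem measurable_proj {n : ℕ} (i : Fin n) : Measurable (proj i) := by
  have h1 : Measurable (fun x : Fin n → ℂ => (WithLp.toLp 2 x : EuclideanSpace ℂ (Fin n))) :=
    (PiLp.continuousLinearEquiv 2 ℂ (fun _ : Fin n => ℂ)).symm.continuous.measurable
  unfold proj
  refine Measurable.ite (measurableSet_singleton (0 : Fin n → ℂ)) measurable_const ?_
  have h2 : Measurable (fun x : Fin n → ℂ =>
      ((‖(WithLp.toLp 2 x : EuclideanSpace ℂ (Fin n))‖⁻¹ : ℝ) : ℂ)) :=
    Complex.measurable_ofReal.comp (h1.norm.inv)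
  exact h2.smul h1

theorem main4135 (n : ℕ) (hn : 2 ≤ n) :
      ∃ f : (Fin n → ℂ) → ℂ,
        DifferentiableOn ℂ f {z : Fin n → ℂ | ∑ i, ‖z i‖ ^ 2 < 1} ∧
        (∃ M : ℝ, ∀ z ∈ {z : Fin n → ℂ | ∑ i, ‖z i‖ ^ 2 < 1}, ‖f z‖ ≤ M) ∧
        ∀ᵐ x ∂(volume : Measure (Fin n → ℂ)),
          eVariationOn
            (fun r : ℝ => f ((((r / Real.sqrt (∑ i, ‖x i‖ ^ 2) : ℝ)) : ℂ) • x))
            (Set.Ico (0 : ℝ) 1) = ⊤ := by
  have hpos : 0 < n := by omega
  let i0 : Fin n := ⟨0, hpos⟩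
  let N : (Fin n → ℂ) → Metric.sphere (0 : EuclideanSpace ℂ (Fin n)) 1 :=
    fun x => ⟨proj i0 x, proj_mem i0 x⟩
  have hN : Measurable N := (measurable_proj i0).subtype_mk
  obtain ⟨f, hf1, hf2, hf3⟩ := Pool.Agent.Results.MP_28e115_an.RadialImages.result n (by omega)
    (Measure.map N (Measure.toFinite (volume : Measure (Fin n → ℂ))))
  have hball : ∀ z : Fin n → ℂ, ∑ i, ‖z i‖ ^ 2 < 1 →
      (WithLp.toLp 2 z : EuclideanSpace ℂ (Fin n)) ∈ Metric.ball 0 1 := by
    intro z hz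
    rw [mem_ball_zero_iff, EuclideanSpace.norm_eq, Real.sqrt_lt' one_pos]
    simpa using hz
  refine ⟨fun z => f (WithLp.toLp 2 z), ?_, ⟨1, fun z hz => hf2 _ (hball z hz)⟩, ?_⟩
  · exact hf1.comp (PiLp.continuousLinearEquiv 2 ℂ (fun _ : Fin n => ℂ)).symm.differentiable.differentiableOn
      (fun z hz => hball z hz)
  · have h1 := (absolutelyContinuous_toFinite (volume : Measure (Fin n → ℂ))).ae_le
      (ae_of_ae_map hN.aemeasurable hf3)
    haveI : Nontrivial (Fin n → ℂ) := by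
      haveI : Nonempty (Fin n) := ⟨i0⟩
      infer_instance
    have h2 : ∀ᵐ x ∂(volume : Measure (Fin n → ℂ)), x ≠ 0 := by
      rw [ae_iff]
      have h3 : {x : Fin n → ℂ | ¬ x ≠ 0} = {0} := by
        ext x
        simp
      rw [h3]
      have h4 := Measure.addHaar_submodule (volume : Measure (Fin n → ℂ))
        (⊥ : Submodule ℝ (Fin n → ℂ)) bot_ne_top
      simpa using h4
    filter_upwards [h1, h2] with x hx hx0
    by_contra hcon
    have hnorm : ‖(WithLp.toLp 2 x : EuclideanSpace ℂ (Fin n))‖ = Real.sqrt (∑ i, ‖x i‖ ^ 2) := by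
      rw [EuclideanSpace.norm_eq]
    have heq : (fun r : ℝ => f (WithLp.toLp 2 ((((r / Real.sqrt (∑ i, ‖x i‖ ^ 2) : ℝ)) : ℂ) • x))) =
        fun t : ℝ => f ((t : ℂ) • ((N x : EuclideanSpace ℂ (Fin n)))) := by
      funext t
      congr 1
      simp only [N, proj, if_neg hx0]
      rw [hnorm, smul_smul, WithLp.toLp_smul]
      congr 1
      push_cast
      rw [div_eq_mul_inv]
    rw [heq] at hcon
    have hd : ∀ t ∈ Ioo (0:ℝ) 1,
        DifferentiableAt ℝ (fun t : ℝ => f ((t : ℂ) • ((N x : EuclideanSpace ℂ (Fin n))))) t := by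
      intro t ht
      have hmem : (t : ℂ) • ((N x : EuclideanSpace ℂ (Fin n))) ∈
          Metric.ball (0 : EuclideanSpace ℂ (Fin n)) 1 := by
        rw [mem_ball_zero_iff, norm_smul]
        have : ‖((N x : EuclideanSpace ℂ (Fin n)))‖ = 1 := by
          have := (N x).2
          rwa [mem_sphere_zero_iff_norm] at this
        rw [this, mul_one, Complex.norm_real, Real.norm_eq_abs, abs_of_pos ht.1]
        exact ht.2
      have h4 := (hf1.differentiableAt (Metric.isOpen_ball.mem_nhds hmem)).restrictScalars ℝ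
      have h5 : DifferentiableAt ℝ (fun t : ℝ => (t : ℂ) • ((N x : EuclideanSpace ℂ (Fin n)))) t :=
        (Complex.ofRealCLM.differentiableAt).smul_const _
      exact h4.comp t h5
    exact (lintegral_deriv_lt_top hd hcon).ne hx

end Pool.Agent.W30.RadVar
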