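import Pool.Agent.Results.MP_4a5947_co.OddHole

set_option autoImplicit false

namespace Pool.Agent.W30.OddHole


open Pool.Agent.Results.MP_4a5947_co.OddHole

instance : DecidableRel ((· ≤ ·) : El t0 → El t0 → Prop) :=
  fun x y => decidable_of_iff (x = y ∨ x < y) le_iff_eq_or_lt.symm

theorem nfree : ¬ ∃ a b c d : El t0, a < b ∧ c < b ∧ c < d ∧ ¬ a ≤ c ∧ ¬ c ≤ a ∧
    ¬ a ≤ d ∧ ¬ d ≤ a ∧ ¬ b ≤ d ∧ ¬ d ≤ b := by
  decide +kernel

theorem colb : ∀ x y : El t0, x ⋖ y → decide (x = u ∨ x = z2 ∨ x = z2' ∨ x = w) ≠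
    decide (y = u ∨ y = z2 ∨ y = z2' ∨ y = w) := by
  decide +kernel

theorem share : ∀ x y : El t0, x ⋖ y → ∃ x' y' : El t0, x' ⋖ y' ∧ x' ⋖ y ∧ x ⋖ y' ∧
    (x' ≠ x ∨ y' ≠ y) := by
  decide +kernel

theorem twocut (x y : El t0) : Two {p : El t0 × El t0 | p.1 ⋖ p.2 ∧ p.1 ⋖ y ∧ x ⋖ p.2} := by
  have h : ∀ x y : El t0, ∃ i : Fin 7, ∀ j,
      ((m j).1 ⋖ (m j).2 ∧ (m j).1 ⋖ y ∧ x ⋖ (m j).2) → j = i ∨ j = i + 1 := by
    decide +kernel
  exact h x y

theorem le_four (k : ℕ) (F : Fin k → Set (El t0 × El t0)) (hF : ∀ i, Two (F i))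
    (hcov : ∀ x y : El t0, x ⋖ y → 
      c0 (x, y) ≤ (@Finset.filter _ (fun i : Fin k => (x, y) ∈ F i) (fun _ => Classical.propDecidable _) Finset.univ).card) :
    4 ≤ k := by
  classical
  have hTwo : ∀ s ∈ Multiset.map F (Finset.univ : Finset (Fin k)).val, Two s := by
    intro s hs
    rw [Multiset.mem_map] at hs
    obtain ⟨i, -, rfl⟩ := hs
    exact hF i
  have hCov : Covers c0 (Multiset.map F (Finset.univ : Finset (Fin k)).val) := by
    intro e he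
    have := hcov e.1 e.2 he
    rw [Multiset.countP_map]
    refine le_trans this (le_of_eq ?_)
    unfold Finset.filter Finset.card
    congr!
  have h4 := four_le _ hTwo hCov
  rw [Multiset.card_map] at h4
  simpa using h4

/-- transport of a linear extension. -/
noncomputable def mkExt (L : El t0 ≃ Fin (Fintype.card (El t0)))
    (hLm : ∀ x y : El t0, x < y → L x < L y) : LinExt (El t0) where
  pos := L.trans (finCongr Nat.card_eq_fintype_card.symm)
  mono := by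
    intro x y hxy
    have h1 : (L x).val < (L y).val := hLm x y hxy
    exact h1

theorem max_le (L : El t0 ≃ Fin (Fintype.card (El t0)))
    (hLm : ∀ x y : El t0, x < y → L x < L y)
    (dp : DecidablePred (fun p : El t0 × El t0 =>
      p.1 ⋖ p.2 ∧ (L p.2 : ℕ) = (L p.1 : ℕ) + 1)) :
    (∑ p ∈ Finset.univ.filter
      (fun p : El t0 × El t0 => p.1 ⋖ p.2 ∧ (L p.2 : ℕ) = (L p.1 : ℕ) + 1), c0 (p.1, p.2)) ≤ 3 := by
  refine le_trans (le_of_eq ?_) (value_le (mkExt L hLm))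
  unfold value
  rw [Finset.sum_filter]
  refine Finset.sum_congr rfl fun p _ => ?_
  have hiff : Used (mkExt L hLm) p ↔ (p.1 ⋖ p.2 ∧ (L p.2 : ℕ) = (L p.1 : ℕ) + 1) := Iff.rfl
  by_cases hp : p.1 ⋖ p.2 ∧ (L p.2 : ℕ) = (L p.1 : ℕ) + 1
  · exact (if_pos hp).trans (if_pos (hiff.2 hp)).symm
  · exact (if_neg hp).trans (if_neg (fun h => hp (hiff.1 h))).symm

end Pool.Agent.W30.OddHole
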