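import Pool.Agent.Results.MP_fd346d_co.Disproof

set_option autoImplicit false

namespace Pool.Agent.W30.PosetDim

open Pool.Agent.Results.MP_fd346d_co.Disproof

/-- realizability as in the frozen statement -/
def FR (P : Type) [PartialOrder P] (d : ℕ) : Prop :=
  ∃ r : Fin d → P → P → Prop,
        (∀ i, (∀ x, r i x x) ∧ (∀ x y z, r i x y → r i y z → r i x z) ∧
          (∀ x y, r i x y → r i y x → x = y) ∧ (∀ x y, r i x y ∨ r i y x)) ∧
        ∀ x y, x ≤ y ↔ ∀ i, r i x y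

theorem FR_iff (P : Type) [PartialOrder P] (d : ℕ) : FR P d ↔ Realizable P d := by
  constructor
  · rintro ⟨r, h1, h2⟩
    refine ⟨r, fun i => ?_, fun i x y hxy => (h2 x y).1 hxy i, fun x y hxy => (h2 x y).2 hxy⟩
    obtain ⟨a, b, c, d⟩ := h1 i
    exact { refl := a, trans := b, antisymm := c, total := d }
  · rintro ⟨r, h1, h2, h3⟩
    refine ⟨r, fun i => ?_, fun x y => ⟨fun h i => h2 i x y h, h3 x y⟩⟩
    have := h1 i
    exact ⟨this.refl, this.trans, this.antisymm, this.total⟩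

theorem dim_le {P : Type} [PartialOrder P] {d : ℕ} (h : Realizable P d) : dim P ≤ d :=
  iInf₂_le d h

theorem exists_of_ne_top {P : Type} [PartialOrder P] (h : dim P ≠ ⊤) :
    ∃ d : ℕ, Realizable P d ∧ dim P = d := by
  obtain ⟨r, hr⟩ := ENat.ne_top_iff_exists.1 h
  have h1 : dim P < ((r + 1 : ℕ) : ℕ∞) := by
    rw [← hr]
    exact_mod_cast Nat.lt_succ_self r
  unfold dim at h1
  simp only [iInf_lt_iff] at h1
  obtain ⟨d, hd, hlt⟩ := h1
  have h2 : d < r + 1 := by exact_mod_cast hlt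
  have h3 : dim P ≤ d := dim_le hd
  rw [← hr] at h3
  have h4 : r ≤ d := by exact_mod_cast h3
  have h5 : d = r := by omega
  exact ⟨d, hd, by rw [← hr, h5]⟩

theorem dim_zero {P : Type} [PartialOrder P] [Subsingleton P] : dim P = 0 := by
  have h : Realizable P 0 := ⟨fun i => i.elim0, fun i => i.elim0, fun i => i.elim0,
    fun x y _ => (Subsingleton.elim x y).le⟩
  have := dim_le h
  simpa using this

theorem dim_right {P Q : Type} [PartialOrder P] [PartialOrder Q] [Nonempty P] :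
    dim Q ≤ dim (P × Q) := by
  by_cases h : dim (P × Q) = ⊤
  · rw [h]; exact le_top
  · obtain ⟨d, hd, hd'⟩ := exists_of_ne_top h
    rw [hd']
    apply dim_le
    obtain ⟨p⟩ := ‹Nonempty P›
    rw [← FR_iff] at hd ⊢
    obtain ⟨r, h1, h2⟩ := hd
    refine ⟨fun i x y => r i (p, x) (p, y), fun i => ⟨fun x => (h1 i).1 _, fun x y z => (h1 i).2.1 _ _ _,
      fun x y h h' => ?_, fun x y => (h1 i).2.2.2 _ _⟩, fun x y => ?_⟩
    · have := (h1 i).2.2.1 _ _ h h'
      exact (Prod.ext_iff.1 this).2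
    · rw [← h2]
      simp

theorem dim_left {P Q : Type} [PartialOrder P] [PartialOrder Q] [Nonempty Q] :
    dim P ≤ dim (P × Q) := by
  by_cases h : dim (P × Q) = ⊤
  · rw [h]; exact le_top
  · obtain ⟨d, hd, hd'⟩ := exists_of_ne_top h
    rw [hd']
    apply dim_le
    obtain ⟨p⟩ := ‹Nonempty Q›
    rw [← FR_iff] at hd ⊢
    obtain ⟨r, h1, h2⟩ := hd
    refine ⟨fun i x y => r i (x, p) (y, p), fun i => ⟨fun x => (h1 i).1 _, fun x y z => (h1 i).2.1 _ _ _,
      fun x y h h' => ?_, fun x y => (h1 i).2.2.2 _ _⟩, fun x y => ?_⟩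
    · have := (h1 i).2.2.1 _ _ h h'
      exact (Prod.ext_iff.1 this).1
    · rw [← h2]
      simp

open Classical in
theorem final (P Q : Type) [PartialOrder P] [PartialOrder Q] (hP : Nonempty P) (hQ : Nonempty Q)
    (hdP : dim P ≠ ⊤) (hdQ : dim Q ≠ ⊤) (hnum : numUnbdd P Q = 1)
    (hlt : dim (P × Q) + ((1 : ℕ) : ℕ∞) + ((0 : ℕ) : ℕ∞) < dim P + dim Q)
    (key : Nontrivial P → Nontrivial Q → (∃ d, FR P d) → (∃ d, FR Q d) → ∀ n : ℕ,
      FR (P × Q) n → ∃ a c : ℕ,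
          a + c ≤ n + ((if (∃ x : P, ∀ y, x ≤ y) ∧ (∃ x : P, ∀ y, y ≤ x) then 0 else 1) +
                       (if (∃ x : Q, ∀ y, x ≤ y) ∧ (∃ x : Q, ∀ y, y ≤ x) then 0 else 1)) ∧
          FR P a ∧ FR Q c) : False := by
  have hnP : Nontrivial P := by
    by_contra hc
    rw [not_nontrivial_iff_subsingleton] at hc
    rw [@dim_zero P, zero_add] at hlt
    have h1 : dim Q ≤ dim (P × Q) := dim_right
    have h2 : dim (P × Q) ≤ dim (P × Q) + ((1 : ℕ) : ℕ∞) + ((0 : ℕ) : ℕ∞) := by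
      rw [add_assoc]
      exact le_self_add
    exact absurd (h2.trans_lt hlt) (not_lt.2 h1)
  have hnQ : Nontrivial Q := by
    by_contra hc
    rw [not_nontrivial_iff_subsingleton] at hc
    rw [@dim_zero Q, add_zero (dim P)] at hlt
    have h1 : dim P ≤ dim (P × Q) := dim_left
    have h2 : dim (P × Q) ≤ dim (P × Q) + ((1 : ℕ) : ℕ∞) + ((0 : ℕ) : ℕ∞) := by
      rw [add_assoc]
      exact le_self_add
    exact absurd (h2.trans_lt hlt) (not_lt.2 h1)
  obtain ⟨p, hp, hp'⟩ := exists_of_ne_top hdP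
  obtain ⟨q, hq, hq'⟩ := exists_of_ne_top hdQ
  have hdPQ : dim (P × Q) ≠ ⊤ := by
    intro hc
    rw [hc] at hlt
    simp at hlt
  obtain ⟨r, hr, hr'⟩ := exists_of_ne_top hdPQ
  rw [hp', hq', hr'] at hlt
  have hlt' : r + 1 + 0 < p + q := by exact_mod_cast hlt
  obtain ⟨a, c, hac, ha, hc⟩ := key hnP hnQ ⟨p, (FR_iff P p).2 hp⟩ ⟨q, (FR_iff Q q).2 hq⟩ r
    ((FR_iff (P × Q) r).2 hr)
  have h1 := dim_le ((FR_iff P a).1 ha)
  have h2 := dim_le ((FR_iff Q c).1 hc)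
  rw [hp'] at h1
  rw [hq'] at h2
  have h3 : p ≤ a := by exact_mod_cast h1
  have h4 : q ≤ c := by exact_mod_cast h2
  have h5 : ((if (∃ x : P, ∀ y, x ≤ y) ∧ (∃ x : P, ∀ y, y ≤ x) then 0 else 1) +
      (if (∃ x : Q, ∀ y, x ≤ y) ∧ (∃ x : Q, ∀ y, y ≤ x) then 0 else 1)) = 1 := by
    unfold numUnbdd IsBdd at hnum
    convert hnum
  rw [h5] at hac
  omega

end Pool.Agent.W30.PosetDim
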