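import Pool.Agent.H183.SX.Final

set_option autoImplicit false

open MeasureTheory
open scoped ENNReal

namespace Pool.Agent.W30.StarX

open Pool.H183.SX Set

/-- The polygon condition of the frozen statement. -/
def FPoly (P : Set (EuclideanSpace ℝ (Fin 2))) : Prop :=
  (∃ n : ℕ, ∃ v : ℕ → EuclideanSpace ℝ (Fin 2), 3 ≤ n ∧ (∀ i, v (i + n) = v i) ∧
            (∀ i < n, ∀ j < n, i ≠ j → v i ≠ v j) ∧
            (∀ i < n, ∀ j < n, i ≠ j →
              segment ℝ (v i) (v (i + 1)) ∩ segment ℝ (v j) (v (j + 1)) ⊆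
                ({v i, v (i + 1)} : Set (EuclideanSpace ℝ (Fin 2))) ∩ {v j, v (j + 1)}) ∧
            frontier P = ⋃ i ∈ Finset.range n, segment ℝ (v i) (v (i + 1))) ∧
          IsCompact P ∧ (interior P).Nonempty ∧ ∃ p ∈ P, StarConvex ℝ p P

theorem seg_cases {n : ℕ} (v : Fin (n + 3) → E2) (a : Fin (n + 3)) (x : E2) :
    x ∈ segment ℝ (v a) (v (a + 1)) ↔
      (∃ s : Ico (0 : ℝ) 1, x = edgePt v (a, s)) ∨ x = edgePt v (a + 1, ⟨0, by simp⟩) := by
  constructor
  · rintro ⟨p, q, hp, hq, hpq, rfl⟩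
    by_cases h1 : q = 1
    · right
      have h2 : p = 0 := by linarith
      simp [edgePt, h1, h2]
    · left
      refine ⟨⟨q, hq, lt_of_le_of_ne (by linarith) h1⟩, ?_⟩
      have h2 : p = 1 - q := by linarith
      simp [edgePt, h2]
  · rintro (⟨s, rfl⟩ | rfl)
    · exact ⟨1 - s, s, by linarith [s.2.2], s.2.1, by ring, rfl⟩
    · simp only [edgePt]
      simp only [sub_zero, one_smul, zero_smul, add_zero]
      exact right_mem_segment _ _ _

theorem vtx {n : ℕ} (v : Fin (n + 3) → E2) (a : Fin (n + 3)) :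
    v a = edgePt v (a, ⟨0, by simp⟩) := by
  simp [edgePt]

theorem ofNat_succ (n i : ℕ) : Fin.ofNat (n + 3) (i + 1) = Fin.ofNat (n + 3) i + 1 := by
  apply Fin.ext
  simp [Fin.ofNat, Fin.val_add]

theorem ofNat_per (n i : ℕ) : Fin.ofNat (n + 3) (i + (n + 3)) = Fin.ofNat (n + 3) i := by
  apply Fin.ext
  simp [Fin.ofNat]

theorem ofNat_inj (n i j : ℕ) (hi : i < n + 3) (hj : j < n + 3)
    (h : Fin.ofNat (n + 3) i = Fin.ofNat (n + 3) j) : i = j := by
  have := congrArg Fin.val h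
  simp only [Fin.ofNat] at this
  rwa [Nat.mod_eq_of_lt hi, Nat.mod_eq_of_lt hj] at this

theorem poly_frozen {K : Set E2} (h : IsPolygon K) (hs : IsStarShaped K) : FPoly K := by
  obtain ⟨hc, hi, n, v, hinj, hfr⟩ := h
  obtain ⟨p, hp, hp2⟩ := hs
  refine ⟨⟨n + 3, fun i => v (Fin.ofNat (n + 3) i), by omega, fun i => ?_, fun i hi j hj hij h => ?_,
    fun i hi j hj hij x hx => ?_, ?_⟩, hc, hi, p, hp, ?_⟩
  · show v _ = v _
    rw [ofNat_per]
  · apply hij
    apply ofNat_inj n i j hi hj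
    simp only at h
    rw [vtx v (Fin.ofNat (n + 3) i), vtx v (Fin.ofNat (n + 3) j)] at h
    exact (Prod.ext_iff.1 (hinj h)).1
  · simp only [ofNat_succ] at hx ⊢
    obtain ⟨h1, h2⟩ := hx
    rw [seg_cases] at h1 h2
    have hne : Fin.ofNat (n + 3) i ≠ Fin.ofNat (n + 3) j := fun h => hij (ofNat_inj n i j hi hj h)
    rcases h1 with ⟨s, h1⟩ | h1 <;> rcases h2 with ⟨t, h2⟩ | h2
    · exact absurd (Prod.ext_iff.1 (hinj (h1.symm.trans h2))).1 hne
    · have h3 := hinj (h1.symm.trans h2)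
      rw [h3] at h1
      have h4 := (Prod.ext_iff.1 h3).1
      simp only at h4
      rw [← vtx] at h1
      refine ⟨Or.inl ?_, Or.inr ?_⟩
      · rw [h1, h4]
      · exact h1
    · have h3 := hinj (h1.symm.trans h2)
      have h4 := (Prod.ext_iff.1 h3).1
      simp only at h4
      rw [← vtx] at h1
      refine ⟨Or.inr ?_, Or.inl ?_⟩
      · exact h1
      · rw [h1, h4]
    · have h3 := (Prod.ext_iff.1 (hinj (h1.symm.trans h2))).1
      simp only at h3
      exact absurd (add_right_cancel h3) hne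
  · rw [hfr]
    ext x
    simp only [mem_range, Prod.exists, mem_iUnion, Finset.mem_range, exists_prop, ofNat_succ,
      seg_cases]
    constructor
    · rintro ⟨a, s, rfl⟩
      refine ⟨a.val, a.2, Or.inl ⟨s, ?_⟩⟩
      have : Fin.ofNat (n + 3) a.val = a := by
        apply Fin.ext
        simp [Fin.ofNat, Nat.mod_eq_of_lt a.2]
      rw [this]
    · rintro ⟨i, -, ⟨s, h⟩ | h⟩
      · exact ⟨_, _, h.symm⟩
      · exact ⟨_, _, h.symm⟩
  · rw [starConvex_iff_segment_subset]
    exact fun x hx => hp2 x hx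

theorem main13398 (m : ℕ) (D : ℕ → (ℕ → EuclideanSpace ℝ (Fin 2) → ℝ≥0∞) → EuclideanSpace ℝ (Fin 2))
    (hD1 : ∀ j f, ‖D j f‖ = 1)
    (hD2 : ∀ j f g, (∀ i < j, f i = g i) → D j f = D j g)
    (hD : ∀ P P' : Set (EuclideanSpace ℝ (Fin 2)), FPoly P → FPoly P' →
        ∀ d d' : ℕ → EuclideanSpace ℝ (Fin 2),
          (∀ j < m, d j = D j (fun i x => volume {t : ℝ | x + t • d i ∈ P})) →
          (∀ j < m, d' j = D j (fun i x => volume {t : ℝ | x + t • d' i ∈ P'})) →
          (∀ j < m, ∀ x : EuclideanSpace ℝ (Fin 2),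
            volume {t : ℝ | x + t • d j ∈ P} = volume {t : ℝ | x + t • d' j ∈ P'}) →
          P = P') : False := by
  classical
  obtain ⟨P, hP, hPs, hS⟩ := main m
  obtain ⟨d, hd⟩ : ∃ d : ℕ → E2, ∀ j, d j = D j (fun i x => volume {t : ℝ | x + t • d i ∈ P}) := by
    let step : (j : ℕ) → ((i : ℕ) → i < j → E2) → E2 :=
      fun j r => D j (fun i x => if h : i < j then volume {t : ℝ | x + t • r i h ∈ P} else 0)
    refine ⟨(wellFounded_lt (α := ℕ)).fix step, fun j => ?_⟩
    rw [WellFounded.fix_eq]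
    apply hD2
    intro i hi
    funext x
    simp only [hi, dif_pos]
  obtain ⟨P', hP', hPs', hne, hx⟩ := hS ((Finset.range m).image d) (by
      intro u hu
      rw [Finset.mem_image] at hu
      obtain ⟨j, _, rfl⟩ := hu
      rw [hd]
      exact hD1 _ _) (by
      refine Finset.card_image_le.trans ?_
      simp)
  have hxx : ∀ j < m, ∀ x : E2, volume {t : ℝ | x + t • d j ∈ P'} =
      volume {t : ℝ | x + t • d j ∈ P} := by
    intro j hj x
    exact congrFun (hx (d j) (Finset.mem_image.2 ⟨j, Finset.mem_range.2 hj, rfl⟩)) x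
  apply hne
  refine (hD P P' (poly_frozen hP hPs) (poly_frozen hP' hPs') d d (fun j _ => hd j) (fun j hj => ?_)
    (fun j hj x => (hxx j hj x).symm)).symm
  rw [hd j]
  apply hD2
  intro i hi
  funext x
  exact (hxx i (hi.trans hj) x).symm

end Pool.Agent.W30.StarX
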