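import Pool.Agent.Results.MP_711492_lc.ErshovNegative

set_option autoImplicit false

namespace Pool.Agent.W30.Ershov

open Pool.Agent.Results.MP_711492_lc.ErshovNegative
open Pool.Agent.Helper158.Num

/-- the class of `n`-c.e. sets, as in the frozen statement -/
def CC (n : ℕ) : Set (Set ℕ) :=
  {A : Set ℕ | ∃ g : ℕ → ℕ → Bool, Computable₂ g ∧ (∀ x, g x 0 = false) ∧
            (∀ x, ∃ s₀, ∀ s, s₀ ≤ s → (g x s = true ↔ x ∈ A)) ∧
            ∀ (x : ℕ) (t : Fin (n + 1) → ℕ), StrictMono t → ∃ j, g x (t j + 1) = g x (t j)}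

theorem encard_iff (n : ℕ) (S : Set ℕ) :
    S.encard ≤ n ↔ ∀ t : Fin (n + 1) → ℕ, StrictMono t → ∃ j, t j ∉ S := by
  constructor
  · intro h t ht
    by_contra hcon
    push Not at hcon
    have h1 : Set.range t ⊆ S := by
      rintro _ ⟨j, rfl⟩
      exact hcon j
    have h2 : (Set.range t).encard = (n + 1 : ℕ) := by
      rw [← Set.image_univ, ht.injective.encard_image, Set.encard_univ]
      simp
    have h3 := (Set.encard_le_encard h1).trans h
    rw [h2] at h3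
    have h4 : n + 1 ≤ n := by exact_mod_cast h3
    omega
  · intro h
    by_contra hcon
    push Not at hcon
    have h1 : ((n + 1 : ℕ) : ℕ∞) ≤ S.encard := by
      have := Order.add_one_le_of_lt hcon
      exact_mod_cast this
    obtain ⟨T, hTS, hT⟩ := Set.exists_subset_encard_eq h1
    have hfin : T.Finite := Set.finite_of_encard_eq_coe hT
    have hcard : hfin.toFinset.card = n + 1 := by
      have := hfin.encard_eq_coe_toFinset_card
      rw [hT] at this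
      exact_mod_cast this.symm
    obtain ⟨j, hj⟩ := h (hfin.toFinset.orderEmbOfFin hcard)
      (hfin.toFinset.orderEmbOfFin hcard).strictMono
    apply hj
    apply hTS
    exact hfin.mem_toFinset.1 (Finset.orderEmbOfFin_mem hfin.toFinset hcard j)

theorem mem_CC (n : ℕ) (A : Set ℕ) : A ∈ CC n ↔ IsNCE n A := by
  have key : ∀ g : ℕ → ℕ → Bool, (∀ x, {s | g x s ≠ g x (s + 1)}.encard ≤ n) ↔
      ∀ (x : ℕ) (t : Fin (n + 1) → ℕ), StrictMono t → ∃ j, g x (t j + 1) = g x (t j) := by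
    intro g
    refine forall_congr' fun x => ?_
    rw [encard_iff]
    refine forall_congr' fun t => forall_congr' fun ht => exists_congr fun j => ?_
    simp only [Set.mem_setOf_eq, not_not]
    exact eq_comm
  constructor
  · rintro ⟨g, h1, h2, h3, h4⟩
    exact ⟨g, h1, h2, (key g).2 h4, h3⟩
  · rintro ⟨g, h1, h2, h3, h4⟩
    exact ⟨g, h1, h2, h4, (key g).1 h3⟩

/-- limit reducibility -/
def LRed (a b : ℕ → Set ℕ) : Prop :=
  ∃ f : ℕ → ℕ, (∃ g : ℕ → ℕ → ℕ, Computable₂ g ∧ ∀ x, ∃ s₀, ∀ s, s₀ ≤ s → g x s = f x) ∧ a = b ∘ f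

lemma nu_LRed_mu (n : ℕ) : LRed (nu (parU n) n) (mu (parU n) n) := by
  refine ⟨fun X => 2 * (fc (parU_ok n) (3 * X)).id, ⟨fun X s => 2 * idAt n s (3 * X), ?_,
    fun X => ?_⟩, ?_⟩
  · exact (Primrec.nat_mul.comp (Primrec.const 2) (idAt_primrec n Primrec.snd
        (Primrec.nat_mul.comp (Primrec.const 3) Primrec.fst))).to_comp
  · obtain ⟨s₀, h⟩ := idAt_limit n (3 * X)
    exact ⟨s₀, fun s hs => by simp only [h s hs]⟩
  · funext X
    unfold nu mu
    have h1 : ag (2 * (fc (parU_ok n) (3 * X)).id) = 3 * (fc (parU_ok n) (3 * X)).id + 1 := by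
      unfold ag; omega
    simp only [Function.comp]
    rw [h1]
    exact F_eq_of_mem (parU_ok n) (fc_FC (parU_ok n) _) (fc_mem (parU_ok n) _)
      (fc_FC (parU_ok n) _).mu_mem

lemma mu_LRed_nu (n : ℕ) : LRed (mu (parU n) n) (nu (parU n) n) := by
  refine ⟨fun y => (fc (parU_ok n) (ag y)).id, ⟨fun y s => idAt n s (ag y), ?_, fun y => ?_⟩, ?_⟩
  · exact (idAt_primrec n Primrec.snd (ag_primrec.comp Primrec.fst)).to_comp
  · exact idAt_limit n (ag y)
  · funext y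
    exact F_eq_of_mem (parU_ok n) (fc_FC (parU_ok n) _) (fc_mem (parU_ok n) _)
      (fc_FC (parU_ok n) _).nu_mem

theorem core (n : ℕ) (hn : 2 ≤ n) :
    ∃ A : Set (Set ℕ), (∀ S ∈ A, IsNCE n S) ∧
      ∃ α β : ℕ → Set ℕ,
        (CompNumbering n A α ∧ Minimal A α) ∧ (CompNumbering n A β ∧ Minimal A β) ∧
        (LRed α β ∧ LRed β α) ∧ ¬ Equiv α β ∧
        (∀ γ, CompNumbering n A γ → Minimal A γ → Equiv γ α ∨ Equiv γ β) := by
  set A : Set (Set ℕ) := Set.range (nu (parU n) n) with hA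
  have hnu : IsNCE n {z | (Nat.unpair z).1 ∈ nu (parU n) n (Nat.unpair z).2} :=
    nce_F hn (a := fun X => 3 * X) (Pr.mul (Pr.cst 3) Primrec.id)
  have hmu : IsNCE n {z | (Nat.unpair z).1 ∈ mu (parU n) n (Nat.unpair z).2} :=
    nce_F hn (a := ag) (Pr.ag Primrec.id)
  have hr : Set.range (mu (parU n) n) = A := by
    rw [hA]
    ext S
    constructor
    · rintro ⟨y, rfl⟩
      obtain ⟨X, hX⟩ := mu_eq_nu (parU_ok n) y
      exact ⟨X, hX.symm⟩
    · rintro ⟨X, rfl⟩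
      obtain ⟨y, hy⟩ := nu_eq_mu (parU_ok n) X
      exact ⟨y, hy.symm⟩
  have hνc : CompNumbering n A (nu (parU n) n) := ⟨rfl, nce_swap' hnu⟩
  have hμc : CompNumbering n A (mu (parU n) n) := ⟨hr, nce_swap' hmu⟩
  have hνμ : ¬ Red (nu (parU n) n) (mu (parU n) n) := nu_not_red_mu hn
  have hdich : ∀ β, CompNumbering n A β →
      (Red β (nu (parU n) n) ∧ Red (nu (parU n) n) β) ∨ Red (mu (parU n) n) β :=
    fun β hβ => dichotomy hn hβ
  have hμν : ¬ Red (mu (parU n) n) (nu (parU n) n) := fun h =>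
    mu_not_positive hn (REPred.of_red h (nu_positive hn))
  have hminν : Minimal A (nu (parU n) n) := by
    refine ⟨rfl, fun β hβ hle => ?_⟩
    rcases hdich β (hνc.of_red hβ hle) with h | h
    · exact h.2
    · exact absurd (h.trans hle) hμν
  have hminμ : Minimal A (mu (parU n) n) := by
    refine ⟨hr, fun β hβ hle => ?_⟩
    rcases hdich β (hμc.of_red hβ hle) with h | h
    · exact absurd (h.2.trans hle) hνμ
    · exact h
  have hne : ¬ Equiv (nu (parU n) n) (mu (parU n) n) := fun h => hνμ h.1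
  have hall : ∀ γ, CompNumbering n A γ → Minimal A γ →
      Equiv γ (nu (parU n) n) ∨ Equiv γ (mu (parU n) n) := by
    intro γ hγ hmin
    rcases hdich γ hγ with h | h
    · exact Or.inl h
    · exact Or.inr ⟨hmin.2 _ hr h, h⟩
  refine ⟨A, ?_, nu (parU n) n, mu (parU n) n, ⟨hνc, hminν⟩, ⟨hμc, hminμ⟩,
    ⟨nu_LRed_mu n, mu_LRed_nu n⟩, hne, hall⟩
  rintro S ⟨X, rfl⟩
  have h1 : Computable fun x : ℕ => Nat.pair x X :=
    (Primrec₂.natPair.comp Primrec.id (Primrec.const X)).to_comp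
  have h2 := nce_preimage hnu h1
  have h3 : (fun x : ℕ => Nat.pair x X) ⁻¹'
      {z | (Nat.unpair z).1 ∈ nu (parU n) n (Nat.unpair z).2} = nu (parU n) n X := by
    ext x
    simp
  rwa [h3] at h2

/-- computable reducibility as in the frozen statement -/
def FRed (a b : ℕ → Set ℕ) : Prop := ∃ f : ℕ → ℕ, Computable f ∧ a = b ∘ f

theorem FRed_iff (a b : ℕ → Set ℕ) : FRed a b ↔ Red a b := by
  unfold FRed Red
  refine exists_congr fun f => and_congr_right fun _ => ?_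
  rw [funext_iff]
  rfl

def FGood (𝒜 : Set (Set ℕ)) (a : ℕ → Set ℕ) : Prop :=
  Set.range a = 𝒜 ∧
        {k : ℕ | (Nat.unpair k).2 ∈ a (Nat.unpair k).1} ∈ CC 2 ∧
        ∀ b : ℕ → Set ℕ, Set.range b = 𝒜 → FRed b a → FRed a b

theorem FGood_iff (𝒜 : Set (Set ℕ)) (a : ℕ → Set ℕ) :
    FGood 𝒜 a ↔ CompNumbering 2 𝒜 a ∧ Minimal 𝒜 a := by
  unfold FGood CompNumbering Pool.Agent.Results.MP_711492_lc.ErshovNegative.Minimal
    Pool.Agent.Results.MP_711492_lc.ErshovNegative.Numbering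
  rw [mem_CC]
  simp only [FRed_iff]
  tauto

theorem final (h : ∀ (𝒜 : Set (Set ℕ)), 𝒜 ⊆ CC 2 →
    (∃ α β : ℕ → Set ℕ, FGood 𝒜 α ∧ FGood 𝒜 β ∧ LRed α β ∧ LRed β α ∧ ¬ (FRed α β ∧ FRed β α)) →
    ∀ k : ℕ, ∃ γ : Fin k → ℕ → Set ℕ, (∀ j, FGood 𝒜 (γ j)) ∧
      ∀ j j', j ≠ j' → ¬ (FRed (γ j) (γ j') ∧ FRed (γ j') (γ j))) : False := by
  obtain ⟨A, hA, α, β, ⟨hα, hα'⟩, ⟨hβ, hβ'⟩, ⟨h1, h2⟩, h3, h4⟩ := core 2 le_rfl
  obtain ⟨γ, hγ, hγ'⟩ := h A (fun S hS => (mem_CC 2 S).2 (hA S hS))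
    ⟨α, β, (FGood_iff A α).2 ⟨hα, hα'⟩, (FGood_iff A β).2 ⟨hβ, hβ'⟩, h1, h2, by
      rw [FRed_iff, FRed_iff]; exact h3⟩ 3
  simp only [FRed_iff] at hγ'
  have key : ∀ j, Equiv (γ j) α ∨ Equiv (γ j) β := fun j =>
    h4 _ ((FGood_iff A _).1 (hγ j)).1 ((FGood_iff A _).1 (hγ j)).2
  have hp : ∀ (j j' : Fin 3) (δ : ℕ → Set ℕ), j ≠ j' → Equiv (γ j) δ → Equiv (γ j') δ → False :=
    fun j j' δ hjj a b => hγ' j j' hjj ⟨a.1.trans b.2, b.1.trans a.2⟩
  rcases key 0 with a0 | a0 <;> rcases key 1 with a1 | a1 <;> rcases key 2 with a2 | a2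
  · exact hp 0 1 _ (by decide) a0 a1
  · exact hp 0 1 _ (by decide) a0 a1
  · exact hp 0 2 _ (by decide) a0 a2
  · exact hp 1 2 _ (by decide) a1 a2
  · exact hp 1 2 _ (by decide) a1 a2
  · exact hp 0 2 _ (by decide) a0 a2
  · exact hp 0 1 _ (by decide) a0 a1
  · exact hp 0 1 _ (by decide) a0 a1

end Pool.Agent.W30.Ershov
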