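import Pool.Agent.W30.FA

set_option autoImplicit false
open MeasureTheory

namespace Pool.Agent.W30.FA

open Pool.Agent.Results.MP_ac169e_pr.ConvergenceAllLaws

/-- depends only on the coordinates in `T` -/
def Dep (T : Finset ℤ) (f : Config → ℝ) : Prop :=
  ∀ η η' : Config, (∀ x ∈ T, η x = η' x) → f η = f η'

/-- the reduced function -/
noncomputable def red (T : Finset ℤ) (f : Config → ℝ) (σ : T → Bool) : ℝ :=
  f (fun y => if hy : y ∈ T then σ ⟨y, hy⟩ else false)

theorem dep_eq {T : Finset ℤ} {f : Config → ℝ} (h : Dep T f) (η : Config) :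
    f η = red T f (fun x : T => η x.1) := by
  apply h
  intro x hx
  simp [hx]

theorem dep_measurable {T : Finset ℤ} {f : Config → ℝ} (h : Dep T f) : Measurable f := by
  have h1 : f = red T f ∘ (fun η : Config => fun x : T => η x.1) := by
    funext η
    exact dep_eq h η
  rw [h1]
  exact (measurable_of_finite _).comp (measurable_pi_lambda _ fun x => measurable_pi_apply _)

theorem dep_bounded {T : Finset ℤ} {f : Config → ℝ} (h : Dep T f) : ∃ C : ℝ, ∀ η, |f η| ≤ C := by
  refine ⟨∑ σ : T → Bool, |red T f σ|, fun η => ?_⟩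
  rw [dep_eq h η]
  exact Finset.single_le_sum (f := fun σ => |red T f σ|) (fun _ _ => abs_nonneg _)
    (Finset.mem_univ _)

theorem dep_gen {T : Finset ℤ} {q : ℝ} {L : ℕ}
    (hT : ∀ y ∈ Finset.Icc (-(L:ℤ) - 1) ((L:ℤ) + 1), y ∈ T) {g : Config → ℝ} (hg : Dep T g) :
    Dep T (genBox q L g) := by
  intro η η' h
  unfold genBox
  refine Finset.sum_congr rfl fun x hx => ?_
  rw [Finset.mem_Icc] at hx
  have e0 : η x = η' x := h x (hT x (by rw [Finset.mem_Icc]; omega))
  have e1 : η (x - 1) = η' (x - 1) := h _ (hT _ (by rw [Finset.mem_Icc]; omega))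
  have e2 : η (x + 1) = η' (x + 1) := h _ (hT _ (by rw [Finset.mem_Icc]; omega))
  have e3 : g η = g η' := hg _ _ h
  have e4 : g (flipAt η x) = g (flipAt η' x) := hg _ _ (fun y hy => by
    unfold flipAt
    by_cases hyx : y = x
    · subst hyx
      rw [Function.update_self, Function.update_self, e0]
    · rw [Function.update_of_ne hyx, Function.update_of_ne hyx, h y hy])
  unfold flipRate facil
  rw [e0, e1, e2, e3, e4]

theorem dep_semiBox {S : Finset ℤ} {q t : ℝ} {L : ℕ} {f : Config → ℝ} (hf : Dep S f) :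
    Dep (S ∪ Finset.Icc (-(L:ℤ) - 1) ((L:ℤ) + 1)) (semiBox q L t f) := by
  have hT : ∀ y ∈ Finset.Icc (-(L:ℤ) - 1) ((L:ℤ) + 1),
      y ∈ S ∪ Finset.Icc (-(L:ℤ) - 1) ((L:ℤ) + 1) := fun y hy => Finset.mem_union_right _ hy
  have h1 : ∀ m : ℕ, Dep (S ∪ Finset.Icc (-(L:ℤ) - 1) ((L:ℤ) + 1)) ((genBox q L)^[m] f) := by
    intro m
    induction m with
    | zero => exact fun η η' h => hf _ _ (fun x hx => h x (Finset.mem_union_left _ hx))
    | succ m ih =>
      rw [Function.iterate_succ']
      exact dep_gen hT ih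
  intro η η' h
  unfold semiBox
  exact tsum_congr fun m => by rw [h1 m η η' h]

theorem measurable_N : Measurable N :=
  measurable_pi_lambda _ fun y => (measurable_of_finite (fun b : Bool => !b)).comp
    (measurable_pi_apply y)

open ProbabilityTheory in
theorem equil_integral (q : ℝ) (h0 : 0 < q) (h1 : q < 1) (f : Config → ℝ) (S : Finset ℤ)
    (hf : Dep S f) :
    ∫ η, f (N η) ∂(equil q h0 h1) =
      ∑ σ : ({x : ℤ // x ∈ S} → Bool),
          (∏ x : {x : ℤ // x ∈ S}, (if σ x = true then q else 1 - q))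
          * f (fun y => if h : y ∈ S then σ ⟨y, h⟩ else false) := by
  have h2 : ∀ η : Config, f (N η) = red S f (fun x => !(S.restrict η x)) := by
    intro η
    rw [dep_eq hf (N η)]
    rfl
  simp_rw [h2]
  have hq : q ∈ unitInterval := ⟨h0.le, h1.le⟩
  have heq : equil q h0 h1 = Measure.infinitePi
      (fun _ : ℤ => ProbabilityTheory.bernoulliMeasure false true ⟨q, hq⟩) := rfl
  rw [heq]
  have h3 : ∫ η : Config, red S f (fun x => !(S.restrict η x)) ∂(Measure.infinitePi
      (fun _ : ℤ => ProbabilityTheory.bernoulliMeasure false true ⟨q, hq⟩)) =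
      ∫ σ : S → Bool, red S f (fun x => !(σ x)) ∂(Measure.pi
        (fun _ : S => ProbabilityTheory.bernoulliMeasure false true ⟨q, hq⟩)) := by
    have h5 := Measure.infinitePi_map_restrict
      (μ := fun _ : ℤ => ProbabilityTheory.bernoulliMeasure false true ⟨q, hq⟩) (I := S)
    have h6 := integral_map (μ := Measure.infinitePi
      (fun _ : ℤ => ProbabilityTheory.bernoulliMeasure false true ⟨q, hq⟩))
      (φ := S.restrict) (f := fun σ : S → Bool => red S f (fun x => !(σ x)))
      (Finset.measurable_restrict S).aemeasurable (measurable_of_finite _).aestronglyMeasurable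
    rw [h5] at h6
    exact h6.symm
  rw [h3, integral_fintype (Integrable.of_finite)]
  have h4 : ∀ σ : S → Bool, (Measure.pi
        (fun _ : S => ProbabilityTheory.bernoulliMeasure false true ⟨q, hq⟩)).real {σ} =
      ∏ x, (if σ x = false then q else 1 - q) := by
    intro σ
    rw [measureReal_def, Measure.pi_singleton, ENNReal.toReal_prod]
    refine Finset.prod_congr rfl fun x _ => ?_
    rw [← measureReal_def, ProbabilityTheory.bernoulliMeasure_real_apply _ (measurableSet_singleton _)]
    cases σ x <;> simp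
  simp_rw [h4]
  have e : Function.Involutive (fun σ : S → Bool => fun x => !(σ x)) := fun σ => by
    funext x; simp
  rw [← Equiv.sum_comp e.toPerm]
  refine Finset.sum_congr rfl fun σ _ => ?_
  simp only [Function.Involutive.coe_toPerm, Bool.not_not, smul_eq_mul, red]
  congr 1
  refine Finset.prod_congr rfl fun x _ => ?_
  have key : ∀ b : Bool, (if (!b) = false then q else 1 - q) = if b = true then q else 1 - q := by
    intro b
    cases b <;> simp
  exact key (σ x)

theorem main19563 (q : ℝ) (h0 : 0 < q) (h1 : q < 1) (f : (ℤ → Bool) → ℝ) (S : Finset ℤ)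
    (hf : Dep S f) (ν : Measure (ℤ → Bool)) [IsProbabilityMeasure ν]
    (hν : ν {η | ∃ x, η x = true} = 1) (ε : ℝ) (hε : 0 < ε) :
    ∃ T : ℝ, ∀ t : ℝ, T ≤ t → ∃ L₀ : ℕ, ∀ L : ℕ, L₀ ≤ L →
    |(∫ η, ∑ τ : (Bx L → Bool),
        (∑' n : ℕ, t ^ n / (Nat.factorial n : ℝ) *
          ((QM q L) ^ n) (fun x : Bx L => η x.1) τ) * f (glue L τ η) ∂ν)
      - (∑ σ : ({x : ℤ // x ∈ S} → Bool),
          (∏ x : {x : ℤ // x ∈ S}, (if σ x = true then q else 1 - q))
          * f (fun y => if h : y ∈ S then σ ⟨y, h⟩ else false))| < ε := by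
  obtain ⟨hA, hB⟩ := Pool.Agent.Results.MP_ac169e_pr.ConvergenceAllLaws.result q h0 h1
  set f' : Config → ℝ := fun ζ => f (N ζ) with hf'
  have hf'd : Dep S f' := fun η η' h => hf _ _ (fun x hx => by simp [N, h x hx])
  have hloc : IsLocal f' := ⟨S, hf'd⟩
  set ν' := ν.map N with hν'def
  haveI : IsProbabilityMeasure ν' := Measure.isProbabilityMeasure_map measurable_N.aemeasurable
  have hν' : ν' {η | ∃ x : ℤ, η x = false} = 1 := by
    have hms : MeasurableSet {η : Config | ∃ x : ℤ, η x = false} := by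
      rw [show {η : Config | ∃ x : ℤ, η x = false} = ⋃ x : ℤ, {η : Config | η x = false} by
        ext η; simp]
      exact MeasurableSet.iUnion fun x =>
        (measurable_pi_apply (X := fun _ : ℤ => Bool) x) (MeasurableSet.singleton false)
    rw [hν'def, Measure.map_apply measurable_N hms, ← hν]
    congr 1
    ext η
    simp [N]
  have hlim := hB ν' inferInstance hν' f' hloc
  obtain ⟨T0, hT0⟩ := (Metric.tendsto_atTop.1 hlim) (ε / 2) (half_pos hε)
  refine ⟨max T0 0, fun t ht => ?_⟩
  have ht0 : 0 ≤ t := (le_max_right _ _).trans ht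
  have ht1 : T0 ≤ t := (le_max_left _ _).trans ht
  have hunif := (hA f' hloc).1 t ht0
  rw [Metric.tendstoUniformly_iff] at hunif
  obtain ⟨L₀, hL₀⟩ := Filter.eventually_atTop.1 (hunif (ε / 4) (by positivity))
  refine ⟨L₀, fun L hL => ?_⟩
  have hms : ∀ n : ℕ, Measurable (fun ζ => semiBox q n t f' ζ) := fun n =>
    dep_measurable (dep_semiBox hf'd)
  have hint : ∀ n : ℕ, Integrable (fun ζ => semiBox q n t f' ζ) ν' := by
    intro n
    obtain ⟨C, hC⟩ := dep_bounded (dep_semiBox (q := q) (t := t) (L := n) hf'd)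
    exact Integrable.of_bound (hms n).aestronglyMeasurable C (Filter.Eventually.of_forall hC)
  have hmsemi : Measurable (fun ζ => semi q t f' ζ) := by
    refine measurable_of_tendsto_metrizable hms ?_
    rw [tendsto_pi_nhds]
    intro ζ
    exact (hA f' hloc).1 t ht0 |>.tendsto_at ζ
  have hintsemi : Integrable (fun ζ => semi q t f' ζ) ν' := by
    obtain ⟨C, hC⟩ := dep_bounded (dep_semiBox (q := q) (t := t) (L := L) hf'd)
    refine Integrable.of_bound hmsemi.aestronglyMeasurable (C + ε / 4)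
      (Filter.Eventually.of_forall fun ζ => ?_)
    have h3 := hL₀ L hL ζ
    rw [Real.dist_eq] at h3
    have h4 := hC ζ
    rw [Real.norm_eq_abs]
    rw [abs_lt] at h3
    rw [abs_le] at h4 ⊢
    constructor <;> linarith [h3.1, h3.2, h4.1, h4.2]
  have e1 : (∫ η, ∑ τ : (Bx L → Bool),
        (∑' n : ℕ, t ^ n / (Nat.factorial n : ℝ) *
          ((QM q L) ^ n) (fun x : Bx L => η x.1) τ) * f (glue L τ η) ∂ν) =
      ∫ ζ, semiBox q L t f' ζ ∂ν' := by
    rw [hν'def, integral_map measurable_N.aemeasurable (hms L).aestronglyMeasurable]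
    exact integral_congr_ae (Filter.Eventually.of_forall fun η => inner_eq q L t f η)
  rw [e1, ← equil_integral q h0 h1 f S hf]
  have h3 : |∫ ζ, semiBox q L t f' ζ ∂ν' - ∫ ζ, semi q t f' ζ ∂ν'| ≤ ε / 4 := by
    rw [← integral_sub (hint L) hintsemi]
    have h5 := norm_integral_le_of_norm_le_const (μ := ν')
      (f := fun ζ => semiBox q L t f' ζ - semi q t f' ζ) (C := ε / 4)
      (Filter.Eventually.of_forall fun ζ => by
        have h3 := hL₀ L hL ζ
        rw [dist_comm, Real.dist_eq] at h3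
        exact h3.le)
    simpa using h5
  have h4 := hT0 t ht1
  rw [Real.dist_eq] at h4
  have h5 := abs_sub_le (∫ ζ, semiBox q L t f' ζ ∂ν') (∫ ζ, semi q t f' ζ ∂ν')
    (∫ η, f' η ∂(equil q h0 h1))
  change |∫ ζ, semiBox q L t f' ζ ∂ν' - ∫ η, f' η ∂(equil q h0 h1)| < ε
  linarith

end Pool.Agent.W30.FA
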