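import Pool.Agent.Results.MP_ac169e_pr.ConvergenceAllLaws

set_option autoImplicit false
open MeasureTheory

namespace Pool.Agent.W30.FA

open Pool.Agent.Results.MP_ac169e_pr.ConvergenceAllLaws

/-- the box -/
abbrev Bx (L : ℕ) : Type := {x : ℤ // x ∈ Finset.Icc (-(L:ℤ) - 1) ((L:ℤ) + 1)}

/-- the generator matrix of the frozen statement -/
noncomputable def QM (q : ℝ) (L : ℕ) : Matrix (Bx L → Bool) (Bx L → Bool) ℝ :=
  Matrix.of
            (fun σ' τ' : ({x : ℤ // x ∈ Finset.Icc (-(L:ℤ) - 1) ((L:ℤ) + 1)} → Bool) =>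
              ∑ x : {x : ℤ // x ∈ Finset.Icc (-(L:ℤ) - 1) ((L:ℤ) + 1)},
                if |x.1| ≤ (L:ℤ) ∧
                    ((if h : x.1 - 1 ∈ Finset.Icc (-(L:ℤ) - 1) ((L:ℤ) + 1)
                        then σ' ⟨x.1 - 1, h⟩ else false) = true ∨
                     (if h : x.1 + 1 ∈ Finset.Icc (-(L:ℤ) - 1) ((L:ℤ) + 1)
                        then σ' ⟨x.1 + 1, h⟩ else false) = true)
                then q * (if τ' = Function.update σ' x true then (1:ℝ) else 0)
                  + (1 - q) * (if τ' = Function.update σ' x false then (1:ℝ) else 0)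
                  - (if τ' = σ' then (1:ℝ) else 0)
                else 0)

/-- flipping all spins -/
def N (η : ℤ → Bool) : ℤ → Bool := fun y => !(η y)

theorem N_N (η : ℤ → Bool) : N (N η) = η := by
  funext y
  simp [N]

/-- gluing -/
noncomputable def glue (L : ℕ) (τ : Bx L → Bool) (η : ℤ → Bool) : ℤ → Bool :=
  fun y => if h : y ∈ Finset.Icc (-(L:ℤ) - 1) ((L:ℤ) + 1) then τ ⟨y, h⟩ else η y

theorem glue_mem (L : ℕ) (τ : Bx L → Bool) (η : ℤ → Bool) (x : Bx L) :
    glue L τ η x.1 = τ x := by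
  unfold glue
  rw [dif_pos x.2]

theorem glue_self (L : ℕ) (η : ℤ → Bool) : glue L (fun x : Bx L => η x.1) η = η := by
  funext y
  unfold glue
  split_ifs <;> rfl

theorem flip_glue (L : ℕ) (τ : Bx L → Bool) (η : ℤ → Bool) (x : Bx L) :
    flipAt (N (glue L τ η)) x.1 = N (glue L (Function.update τ x (!(τ x))) η) := by
  funext y
  unfold flipAt
  by_cases hy : y = x.1
  · subst hy
    rw [Function.update_self]
    simp only [N, glue_mem, Function.update_self]
  · rw [Function.update_of_ne hy]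
    simp only [N]
    congr 1
    unfold glue
    split_ifs with h
    · rw [Function.update_of_ne]
      intro h2
      apply hy
      exact congrArg Subtype.val h2
    · rfl

theorem QM_mulVec (q : ℝ) (L : ℕ) (g : (Bx L → Bool) → ℝ) (σ : Bx L → Bool) :
    (QM q L).mulVec g σ = ∑ x : Bx L,
      if |x.1| ≤ (L:ℤ) ∧
          ((if h : x.1 - 1 ∈ Finset.Icc (-(L:ℤ) - 1) ((L:ℤ) + 1)
              then σ ⟨x.1 - 1, h⟩ else false) = true ∨
           (if h : x.1 + 1 ∈ Finset.Icc (-(L:ℤ) - 1) ((L:ℤ) + 1)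
              then σ ⟨x.1 + 1, h⟩ else false) = true)
      then q * g (Function.update σ x true) + (1 - q) * g (Function.update σ x false) - g σ
      else 0 := by
  simp only [QM, Matrix.mulVec, dotProduct, Matrix.of_apply, Finset.sum_mul]
  rw [Finset.sum_comm]
  refine Finset.sum_congr rfl fun x _ => ?_
  by_cases h : |x.1| ≤ (L:ℤ) ∧
          ((if h : x.1 - 1 ∈ Finset.Icc (-(L:ℤ) - 1) ((L:ℤ) + 1)
              then σ ⟨x.1 - 1, h⟩ else false) = true ∨
           (if h : x.1 + 1 ∈ Finset.Icc (-(L:ℤ) - 1) ((L:ℤ) + 1)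
              then σ ⟨x.1 + 1, h⟩ else false) = true)
  · simp only [if_pos h]
    have h3 : ∀ (ρ : Bx L → Bool) (c : ℝ), ∑ τ : Bx L → Bool,
        (c * (if τ = ρ then (1:ℝ) else 0)) * g τ = c * g ρ := by
      intro ρ c
      rw [Finset.sum_eq_single ρ]
      · rw [if_pos rfl, mul_one]
      · intro τ _ hτ
        rw [if_neg hτ, mul_zero, zero_mul]
      · intro hc
        exact absurd (Finset.mem_univ _) hc
    have h4 : ∑ τ : Bx L → Bool, (if τ = σ then (1:ℝ) else 0) * g τ = g σ := by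
      have := h3 σ 1
      simpa using this
    simp only [sub_mul, add_mul, Finset.sum_sub_distrib, Finset.sum_add_distrib]
    rw [h4]
    have h5 := h3 (Function.update σ x true) q
    have h6 := h3 (Function.update σ x false) (1 - q)
    simp only [sub_mul, Finset.sum_sub_distrib] at h6
    linarith [h5, h6]
  · simp only [if_neg h, zero_mul, Finset.sum_const_zero]

theorem gen_step (q : ℝ) (L : ℕ) (h : Config → ℝ) (g : (Bx L → Bool) → ℝ) (η : ℤ → Bool)
    (hg : ∀ σ, g σ = h (N (glue L σ η))) (σ : Bx L → Bool) :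
    (QM q L).mulVec g σ = genBox q L h (N (glue L σ η)) := by
  rw [QM_mulVec]
  set φ : ℤ → ℝ := fun y => if |y| ≤ (L : ℤ) then
    flipRate q y (N (glue L σ η)) * (h (flipAt (N (glue L σ η)) y) - h (N (glue L σ η))) else 0
    with hφ
  have h1 : ∀ x : Bx L, (if |x.1| ≤ (L:ℤ) ∧
          ((if h : x.1 - 1 ∈ Finset.Icc (-(L:ℤ) - 1) ((L:ℤ) + 1)
              then σ ⟨x.1 - 1, h⟩ else false) = true ∨
           (if h : x.1 + 1 ∈ Finset.Icc (-(L:ℤ) - 1) ((L:ℤ) + 1)
              then σ ⟨x.1 + 1, h⟩ else false) = true)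
      then q * g (Function.update σ x true) + (1 - q) * g (Function.update σ x false) - g σ
      else 0) = φ x.1 := by
    intro x
    simp only [hφ]
    by_cases hx : |x.1| ≤ (L : ℤ)
    · rw [if_pos hx]
      have hx' := abs_le.1 hx
      have hm : x.1 - 1 ∈ Finset.Icc (-(L:ℤ) - 1) ((L:ℤ) + 1) := by
        rw [Finset.mem_Icc]; omega
      have hp : x.1 + 1 ∈ Finset.Icc (-(L:ℤ) - 1) ((L:ℤ) + 1) := by
        rw [Finset.mem_Icc]; omega
      rw [dif_pos hm, dif_pos hp]
      have e1 : N (glue L σ η) (x.1 - 1) = !(σ ⟨x.1 - 1, hm⟩) := by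
        simp only [N]
        rw [show glue L σ η (x.1 - 1) = σ ⟨x.1 - 1, hm⟩ from glue_mem L σ η ⟨x.1 - 1, hm⟩]
      have e2 : N (glue L σ η) (x.1 + 1) = !(σ ⟨x.1 + 1, hp⟩) := by
        simp only [N]
        rw [show glue L σ η (x.1 + 1) = σ ⟨x.1 + 1, hp⟩ from glue_mem L σ η ⟨x.1 + 1, hp⟩]
      have e3 : N (glue L σ η) x.1 = !(σ x) := by
        simp only [N, glue_mem]
      unfold flipRate facil
      rw [e1, e2, e3, flip_glue, ← hg, ← hg]
      by_cases hc : (σ ⟨x.1 - 1, hm⟩ = true ∨ σ ⟨x.1 + 1, hp⟩ = true)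
      · have hc' : ((!(σ ⟨x.1 - 1, hm⟩)) = false ∨ (!(σ ⟨x.1 + 1, hp⟩)) = false) := by
          simpa using hc
        rw [if_pos ⟨hx, hc⟩, if_pos hc', one_mul]
        cases hσ : σ x
        · have h3 : Function.update σ x false = σ := by
            rw [← hσ]; exact Function.update_eq_self x σ
          simp only [Bool.not_false, if_true, h3]
          ring
        · have h3 : Function.update σ x true = σ := by
            rw [← hσ]; exact Function.update_eq_self x σ
          simp only [Bool.not_true, h3]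
          simp only [Bool.false_eq_true, if_false]
          ring
      · have hc' : ¬ ((!(σ ⟨x.1 - 1, hm⟩)) = false ∨ (!(σ ⟨x.1 + 1, hp⟩)) = false) := by
          simpa using hc
        rw [if_neg (fun h => hc h.2), if_neg hc', zero_mul, zero_mul]
    · rw [if_neg (fun h => hx h.1), if_neg hx]
  rw [Finset.sum_congr rfl (fun x _ => h1 x)]
  have h2 : ∑ x : Bx L, φ x.1 = ∑ y ∈ Finset.Icc (-(L:ℤ) - 1) ((L:ℤ) + 1), φ y :=
    Finset.sum_coe_sort (Finset.Icc (-(L:ℤ) - 1) ((L:ℤ) + 1)) φ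
  rw [h2]
  unfold genBox
  symm
  refine Finset.sum_subset_zero_on_sdiff ?_ ?_ ?_
  · intro y hy
    rw [Finset.mem_Icc] at hy ⊢
    omega
  · intro y hy
    rw [Finset.mem_sdiff, Finset.mem_Icc, Finset.mem_Icc] at hy
    simp only [hφ]
    rw [if_neg]
    rw [abs_le]
    exact hy.2
  · intro y hy
    rw [Finset.mem_Icc] at hy
    simp only [hφ]
    rw [if_pos (abs_le.2 hy)]

theorem gen_iter (q : ℝ) (L : ℕ) (f : Config → ℝ) (η : ℤ → Bool) (m : ℕ) :
    ∀ σ : Bx L → Bool, ((QM q L) ^ m).mulVec (fun τ => f (glue L τ η)) σ =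
      (genBox q L)^[m] (fun ζ => f (N ζ)) (N (glue L σ η)) := by
  induction m with
  | zero =>
    intro σ
    simp [N_N]
  | succ m ih =>
    intro σ
    rw [Function.iterate_succ', pow_succ', ← Matrix.mulVec_mulVec]
    exact gen_step q L _ _ η ih σ

theorem abs_pow_le (q : ℝ) (L : ℕ) : ∃ C : ℝ, ∀ (n : ℕ) (σ τ : Bx L → Bool),
    |((QM q L) ^ n) σ τ| ≤ C ^ n := by
  classical
  set C : ℝ := 1 + ∑ σ : Bx L → Bool, ∑ τ : Bx L → Bool, |(QM q L) σ τ| with hC
  have hC0 : 0 ≤ ∑ σ : Bx L → Bool, ∑ τ : Bx L → Bool, |(QM q L) σ τ| :=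
    Finset.sum_nonneg fun _ _ => Finset.sum_nonneg fun _ _ => abs_nonneg _
  have hC1 : 0 ≤ C := by linarith
  refine ⟨C, fun n => ?_⟩
  induction n with
  | zero =>
    intro σ τ
    rw [pow_zero, pow_zero, Matrix.one_apply]
    split_ifs <;> simp
  | succ n ih =>
    intro σ τ
    rw [pow_succ, Matrix.mul_apply, pow_succ]
    calc |∑ j, ((QM q L) ^ n) σ j * (QM q L) j τ|
        ≤ ∑ j, |((QM q L) ^ n) σ j * (QM q L) j τ| := Finset.abs_sum_le_sum_abs _ _
      _ ≤ ∑ j, C ^ n * |(QM q L) j τ| := by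
          refine Finset.sum_le_sum fun j _ => ?_
          rw [abs_mul]
          exact mul_le_mul_of_nonneg_right (ih σ j) (abs_nonneg _)
      _ = C ^ n * ∑ j, |(QM q L) j τ| := by rw [Finset.mul_sum]
      _ ≤ C ^ n * C := by
          refine mul_le_mul_of_nonneg_left ?_ (pow_nonneg hC1 n)
          have : ∑ j, |(QM q L) j τ| ≤ ∑ σ : Bx L → Bool, ∑ τ : Bx L → Bool, |(QM q L) σ τ| :=
            Finset.sum_le_sum fun j _ =>
              Finset.single_le_sum (f := fun τ => |(QM q L) j τ|) (fun _ _ => abs_nonneg _)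
                (Finset.mem_univ τ)
          linarith

theorem summ (q : ℝ) (L : ℕ) (t : ℝ) (σ τ : Bx L → Bool) :
    Summable (fun n : ℕ => t ^ n / (Nat.factorial n : ℝ) * ((QM q L) ^ n) σ τ) := by
  obtain ⟨C, hC⟩ := abs_pow_le q L
  refine Summable.of_norm_bounded (g := fun n : ℕ => (|t| * C) ^ n / (Nat.factorial n : ℝ))
    (Real.summable_pow_div_factorial _) (fun n => ?_)
  rw [Real.norm_eq_abs, abs_mul, abs_div, abs_pow, Nat.abs_cast, mul_pow]
  calc |t| ^ n / (Nat.factorial n : ℝ) * |((QM q L) ^ n) σ τ|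
      ≤ |t| ^ n / (Nat.factorial n : ℝ) * C ^ n :=
        mul_le_mul_of_nonneg_left (hC n σ τ) (by positivity)
    _ = |t| ^ n * C ^ n / (Nat.factorial n : ℝ) := by ring

theorem inner_eq (q : ℝ) (L : ℕ) (t : ℝ) (f : Config → ℝ) (η : ℤ → Bool) :
    (∑ τ : (Bx L → Bool),
        (∑' n : ℕ, t ^ n / (Nat.factorial n : ℝ) *
          ((QM q L) ^ n) (fun x : Bx L => η x.1) τ) * f (glue L τ η)) =
      semiBox q L t (fun ζ => f (N ζ)) (N η) := by
  have h1 : ∀ τ : Bx L → Bool, (∑' n : ℕ, t ^ n / (Nat.factorial n : ℝ) *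
          ((QM q L) ^ n) (fun x : Bx L => η x.1) τ) * f (glue L τ η) =
      ∑' n : ℕ, t ^ n / (Nat.factorial n : ℝ) *
          ((QM q L) ^ n) (fun x : Bx L => η x.1) τ * f (glue L τ η) := by
    intro τ
    rw [tsum_mul_right]
  rw [Finset.sum_congr rfl (fun τ _ => h1 τ),
    ← Summable.tsum_finsetSum (fun τ _ => (summ q L t _ τ).mul_right _)]
  unfold semiBox
  refine tsum_congr fun n => ?_
  have h2 := gen_iter q L f η n (fun x : Bx L => η x.1)
  rw [glue_self] at h2
  rw [← h2, Matrix.mulVec, dotProduct, Finset.mul_sum]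
  refine Finset.sum_congr rfl fun τ _ => ?_
  ring

end Pool.Agent.W30.FA
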