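import Mathlib
import Pool.Agent.H326R3.CB6

/-!
# The corona theorem on the ball for data with at most one bad function near each boundary point

Let `B` be the ball of `ℂ^(n+1)` and let `f_1, …, f_N` be bounded holomorphic functions on `B`
without common zero in `B`. Suppose that near each boundary point `p` some of the `f_j` have
`∑ |f_j| ≥ c > 0`, and that all but one of these are asymptotic at `p` to bounded holomorphic
functions of the one variable `⟨z,p⟩`. Then there are bounded holomorphic `g_j` on `B` with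
`∑ f_j g_j = 1`.

The exceptional function is an arbitrary bounded holomorphic function, and it may be a different
one for different `p`. Examples:

* `algebra`: the `f_j` are in the algebra generated by the ball algebra and all functions
  `h(⟨z,a⟩)` (`|a| = 1`, `h ∈ H^∞(𝔻)`, all directions `a` at the same time), together with one
  arbitrary bounded holomorphic function;
* `disjoint_singularities`: every point of the sphere has at most one `f_j` which is not continuous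
  up to the sphere there.
-/

set_option autoImplicit false

open Metric Set Filter Topology
open Pool.Agent.H720R2.Cor (Ball)

namespace Pool.Agent.Results.MP_ca0fc2_an.OneBadFunction

/-- **Corona theorem on the ball for data which near each boundary point consist of one arbitrary
bounded holomorphic function and functions asymptotic to bounded functions of one variable.** -/
theorem result (n N : ℕ) (f : Fin N → (Fin (n + 1) → ℂ) → ℂ)
    (hd : ∀ j, DifferentiableOn ℂ (f j) (Ball (n + 1)))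
    (hb : ∀ j, ∃ M : ℝ, ∀ z ∈ Ball (n + 1), ‖f j z‖ ≤ M)
    (hz : ∀ z ∈ Ball (n + 1), ∃ j, f j z ≠ 0)
    (hp : ∀ p : Fin (n + 1) → ℂ, ∑ i, ‖p i‖ ^ 2 = 1 →
      ∃ (k : Fin N) (S : Finset (Fin N)) (c : ℝ), 0 < c ∧
        (∀ᶠ z in 𝓝[Ball (n + 1)] p, c ≤ ‖f k z‖ + ∑ j ∈ S, ‖f j z‖) ∧
        ∀ j ∈ S, ∃ h : ℂ → ℂ, DifferentiableOn ℂ h (ball 0 1) ∧
          (∃ M : ℝ, ∀ w ∈ ball (0 : ℂ) 1, ‖h w‖ ≤ M) ∧
          Tendsto (fun z => f j z - h (∑ i, z i * starRingEnd ℂ (p i)))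
            (𝓝[Ball (n + 1)] p) (𝓝 0)) :
    ∃ g : Fin N → (Fin (n + 1) → ℂ) → ℂ,
      (∀ j, DifferentiableOn ℂ (g j) (Ball (n + 1))) ∧
      (∃ C : ℝ, ∀ j, ∀ z ∈ Ball (n + 1), ‖g j z‖ ≤ C) ∧
      ∀ z ∈ Ball (n + 1), ∑ j, f j z * g j z = 1 := by
  refine Pool.Agent.H326R3.CB.corona2 n N f hd hb hz fun p hp1 => ?_
  obtain ⟨ψ, hψ, hψ0, hfil⟩ := Pool.Agent.H326R3.CB.peak_unitary p hp1
  obtain ⟨k, S, c, hc, hlow, hS⟩ := hp p hp1
  refine ⟨ψ, hψ, hfil, k, S, c, hc, hlow, fun j hj => ?_⟩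
  obtain ⟨h, h1, h2, h3⟩ := hS j hj
  refine ⟨h, h1, h2, ?_⟩
  simp only [hψ0]
  exact h3

/-- Example: the algebra generated by the ball algebra and all bounded functions of one variable
(in all directions at the same time), together with one arbitrary function `G`. -/
theorem algebra (n N : ℕ) (f : Fin N → (Fin (n + 1) → ℂ) → ℂ) (G : (Fin (n + 1) → ℂ) → ℂ)
    (hf : ∀ j, f j ∈ Algebra.adjoin ℂ
      ({f | ContinuousOn f {z | ∑ i, ‖z i‖ ^ 2 ≤ 1} ∧ DifferentiableOn ℂ f (Ball (n + 1))} ∪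
      {f | ∃ (a : Fin (n + 1) → ℂ) (h : ℂ → ℂ), ∑ i, ‖a i‖ ^ 2 = 1 ∧
        DifferentiableOn ℂ h (ball 0 1) ∧ (∃ M : ℝ, ∀ w ∈ ball (0 : ℂ) 1, ‖h w‖ ≤ M) ∧
        f = fun z => h (∑ i, z i * starRingEnd ℂ (a i))}))
    (hG : DifferentiableOn ℂ G (Ball (n + 1)))
    (hGb : ∃ M : ℝ, ∀ z ∈ Ball (n + 1), ‖G z‖ ≤ M)
    (δ : ℝ) (hδ : 0 < δ) (hc : ∀ z ∈ Ball (n + 1), δ ≤ ∑ j, ‖f j z‖ + ‖G z‖) :
    ∃ (g : Fin N → (Fin (n + 1) → ℂ) → ℂ) (g₀ : (Fin (n + 1) → ℂ) → ℂ),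
      (∀ j, DifferentiableOn ℂ (g j) (Ball (n + 1))) ∧ DifferentiableOn ℂ g₀ (Ball (n + 1)) ∧
      (∃ C : ℝ, (∀ j, ∀ z ∈ Ball (n + 1), ‖g j z‖ ≤ C) ∧ ∀ z ∈ Ball (n + 1), ‖g₀ z‖ ≤ C) ∧
      ∀ z ∈ Ball (n + 1), ∑ j, f j z * g j z + G z * g₀ z = 1 :=
  Pool.Agent.H326R3.CB.corona3 n N f G hf hG hGb δ hδ hc

/-- Example: corona data such that at every point of the sphere all but at most one of the
functions have a limit. -/
theorem disjoint_singularities (n N : ℕ) (f : Fin N → (Fin (n + 1) → ℂ) → ℂ)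
    (hd : ∀ j, DifferentiableOn ℂ (f j) (Ball (n + 1)))
    (hb : ∀ j, ∃ M : ℝ, ∀ z ∈ Ball (n + 1), ‖f j z‖ ≤ M)
    (δ : ℝ) (hδ : 0 < δ) (hc : ∀ z ∈ Ball (n + 1), δ ≤ ∑ j, ‖f j z‖)
    (hp : ∀ p : Fin (n + 1) → ℂ, ∑ i, ‖p i‖ ^ 2 = 1 → ∃ k : Fin N, ∀ j, j ≠ k →
      ∃ y : ℂ, Tendsto (f j) (𝓝[Ball (n + 1)] p) (𝓝 y)) :
    ∃ g : Fin N → (Fin (n + 1) → ℂ) → ℂ,
      (∀ j, DifferentiableOn ℂ (g j) (Ball (n + 1))) ∧
      (∃ C : ℝ, ∀ j, ∀ z ∈ Ball (n + 1), ‖g j z‖ ≤ C) ∧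
      ∀ z ∈ Ball (n + 1), ∑ j, f j z * g j z = 1 := by
  classical
  refine result n N f hd hb (fun z hz => ?_) (fun p hp1 => ?_)
  · by_contra hcon
    push Not at hcon
    have h1 := hc z hz
    simp only [hcon, norm_zero, Finset.sum_const_zero] at h1
    linarith
  · obtain ⟨k, hk⟩ := hp p hp1
    refine ⟨k, Finset.univ.erase k, δ, hδ, ?_, fun j hj => ?_⟩
    · filter_upwards [self_mem_nhdsWithin] with z hz
      have h1 := Finset.add_sum_erase Finset.univ (fun j => ‖f j z‖) (Finset.mem_univ k)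
      exact (hc z hz).trans h1.ge
    · obtain ⟨y, hy⟩ := hk j (Finset.ne_of_mem_erase hj)
      refine ⟨fun _ => y, differentiableOn_const _, ⟨‖y‖, fun w _ => le_rfl⟩, ?_⟩
      have := hy.sub_const y
      rwa [sub_self] at this

end Pool.Agent.Results.MP_ca0fc2_an.OneBadFunction
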